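import Pool.Agent.Helper77.PPS.GoalsN
import Pool.Agent.Helper96.RD.NFI
import Pool.Agent.Helper40.RD.TRF
import Pool.Agent.Helper16.PPS.NSPL

/-!
# Project PP (MP_fc6b1e_nt), part A3: the statement N_CHS
-/

set_option autoImplicit false

namespace Pool.Agent.Helper15.PPS

open NumberField Module IsDedekindDomain Pool.Agent.Helper51.RP Pool.Agent.Helper77.PPS
open Pool.Agent.Helper42.PP (Spl)
open Pool.Agent.Helper40.RS (bel gw gw_inj absNorm_free)
open Pool.Agent.Helper16.PPS (exists_gw mem_spl fin_bel)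

section

variable {K E : Type} [Field K] [NumberField K] [Field E] [NumberField E] [Algebra K E]
  [IsGalois K E]

/-- at most `[E : K]` primes lie above `v` -/
theorem card_fiber (G : Finset (HeightOneSpectrum (𝓞 E))) (v : HeightOneSpectrum (𝓞 K))
    (hG : ∀ W ∈ G, bel K W = v) : G.card ≤ finrank K E := by
  classical
  rcases G.eq_empty_or_nonempty with rfl | ⟨W₀, hW₀⟩
  · simp
  have hfinG : Fintype (E ≃ₐ[K] E) := Fintype.ofFinite _
  have h1 : G ⊆ Finset.univ.image (fun g : E ≃ₐ[K] E => gw g W₀) := by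
    intro W hW
    obtain ⟨g, hg⟩ := exists_gw W W₀ (by rw [hG W hW, hG W₀ hW₀])
    exact Finset.mem_image.2 ⟨g, Finset.mem_univ _, hg⟩
  calc G.card ≤ (Finset.univ.image (fun g : E ≃ₐ[K] E => gw g W₀)).card :=
        Finset.card_le_card h1
    _ ≤ (Finset.univ : Finset (E ≃ₐ[K] E)).card := Finset.card_image_le
    _ = finrank K E := by
        rw [Finset.card_univ, ← Nat.card_eq_fintype_card, IsGalois.card_aut_eq_finrank K E]

end

/-- Packet PPS-N_CHS. -/
theorem n_chs (h1 : Pool.Agent.Helper77.PPS.N_CHL) (h2 : Pool.Agent.Helper77.PPS.N_CHB) :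
    Pool.Agent.Helper77.PPS.N_CHS := by
  classical
  intro K E _ _ _ _ _ _ _ S a ha
  obtain ⟨CE, hE⟩ := h2 E
  obtain ⟨CK, hK⟩ := h2 K
  obtain ⟨c, B, x₀, hc, hB, hx⟩ := h1 E
  obtain ⟨R, hR, hfree⟩ := Pool.Agent.Helper96.RD.free_of_prime (K := K) (K₁ := E)
  have hBel := fin_bel (E := E) S
  have hn : 0 < finrank K E := finrank_pos
  have hnR : (0 : ℝ) < finrank K E := by exact_mod_cast hn
  obtain ⟨m, hm⟩ : ∃ m : ℕ, ∀ W : HeightOneSpectrum (𝓞 E), (W ∈ R ∨ bel K W ∈ S) → nv W ≤ m := by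
    refine ⟨(hR.toFinset ∪ hBel.toFinset).sup nv, fun W hW => ?_⟩
    apply Finset.le_sup (f := nv)
    rw [Finset.mem_union, Set.Finite.mem_toFinset, Set.Finite.mem_toFinset]
    exact hW
  refine ⟨a * c / finrank K E, B, max x₀ (B * m), by positivity, hB, fun x hxx => ?_⟩
  have hx1 : x₀ ≤ x := (le_max_left _ _).trans hxx
  have hx2 : B * m ≤ x := (le_max_right _ _).trans hxx
  have hB0 : 0 < B := by linarith
  have hx3 : (m : ℝ) ≤ x / B := by
    rw [le_div_iff₀ hB0, mul_comm]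
    exact hx2
  have key := hx x hx1
  set FE := (pr (nv (F := E)) (B * x)).filter (fun q => x / B < nv q) with hFE
  set FK := (pr (nv (F := K)) (B * x)).filter (fun q => x / B < nv q) with hFK
  set G := FE.filter (fun W => (nv W).Prime) with hG
  set T := FK.filter (fun v => v ∈ Spl E S) with hT
  have e1 : ∑ q ∈ FE, ({v : HeightOneSpectrum (𝓞 E) | (nv v).Prime}.indicator
      (fun _ ↦ (1 : ℝ))) q * Real.log (nv q) = ∑ W ∈ G, Real.log (nv W) := by
    refine Eq.trans (Finset.sum_congr rfl fun W _ => ?_)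
      (Finset.sum_filter (s := FE) (fun W => (nv W).Prime) (fun W => Real.log (nv W))).symm
    by_cases hW : (nv W).Prime
    · rw [Set.indicator_of_mem (show W ∈ {v : HeightOneSpectrum (𝓞 E) | (nv v).Prime} from hW),
        if_pos hW, one_mul]
    · rw [Set.indicator_of_notMem (show W ∉ {v : HeightOneSpectrum (𝓞 E) | (nv v).Prime} from hW),
        if_neg hW, zero_mul]
  have e2 : ∑ q ∈ FK, ((Spl E S).indicator (fun _ ↦ a)) q * Real.log (nv q) =
      a * ∑ v ∈ T, Real.log (nv v) := by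
    have e0 : ∑ v ∈ T, Real.log (nv v) = ∑ v ∈ FK, if v ∈ Spl E S then Real.log (nv v) else 0 :=
      Finset.sum_filter (s := FK) (fun v => v ∈ Spl E S) (fun v => Real.log (nv v))
    rw [e0, Finset.mul_sum]
    refine Finset.sum_congr rfl fun v _ => ?_
    by_cases hv : v ∈ Spl E S
    · rw [Set.indicator_of_mem hv, if_pos hv]
    · rw [Set.indicator_of_notMem hv, if_neg hv, zero_mul, mul_zero]
  have hGW : ∀ W ∈ G, bel K W ∉ S ∧ FreeP K W ∧ (nv W : ℝ) ≤ B * x ∧ x / B < nv W := by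
    intro W hW
    rw [hG, Finset.mem_filter, hFE, Finset.mem_filter, mem_pr hE] at hW
    obtain ⟨⟨h3, h4⟩, h5⟩ := hW
    have h6 : ¬ (W ∈ R ∨ bel K W ∈ S) := by
      intro h7
      have h8 : (nv W : ℝ) ≤ m := by exact_mod_cast hm W h7
      linarith
    rw [not_or] at h6
    exact ⟨h6.2, hfree W h6.1 h5, h3, h4⟩
  have hnorm : ∀ W ∈ G, nv W = nv (bel K W) := fun W hW => absNorm_free W (hGW W hW).2.1
  have hmap : ∀ W ∈ G, bel K W ∈ T := by
    intro W hW
    obtain ⟨h3, h4, h5, h6⟩ := hGW W hW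
    rw [hT, Finset.mem_filter, hFK, Finset.mem_filter, mem_pr hK, ← hnorm W hW]
    exact ⟨⟨h5, h6⟩, (mem_spl S _).2 ⟨h3, W, rfl, h4⟩⟩
  have e3 : ∑ W ∈ G, Real.log (nv W) ≤ finrank K E * ∑ v ∈ T, Real.log (nv v) := by
    rw [← Finset.sum_fiberwise_of_maps_to hmap, Finset.mul_sum]
    refine Finset.sum_le_sum fun v _ => ?_
    have h3 : ∑ W ∈ G.filter (fun W => bel K W = v), Real.log (nv W) =
        ((G.filter (fun W => bel K W = v)).card : ℝ) * Real.log (nv v) := by
      rw [← nsmul_eq_mul, ← Finset.sum_const]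
      refine Finset.sum_congr rfl fun W hW => ?_
      rw [Finset.mem_filter] at hW
      rw [hnorm W hW.1, hW.2]
    rw [h3]
    have h4 := card_fiber (G.filter (fun W => bel K W = v)) v
      (fun W hW => (Finset.mem_filter.1 hW).2)
    have h5 : (0 : ℝ) ≤ Real.log (nv v) := by
      apply Real.log_nonneg
      have := hK.two v
      have h6 : (2 : ℝ) ≤ nv v := by exact_mod_cast this
      linarith
    exact mul_le_mul_of_nonneg_right (by exact_mod_cast h4) h5
  rw [e1] at key
  rw [e2]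
  have h7 : c * x ≤ finrank K E * ∑ v ∈ T, Real.log (nv v) := key.trans e3
  have h8 : a * c / finrank K E * x = a * (c * x) / finrank K E := by ring
  rw [h8, div_le_iff₀ hnR]
  have h9 := mul_le_mul_of_nonneg_left h7 ha.le
  calc a * (c * x) ≤ a * (finrank K E * ∑ v ∈ T, Real.log (nv v)) := h9
    _ = (a * ∑ v ∈ T, Real.log (nv v)) * finrank K E := by ring

end Pool.Agent.Helper15.PPS
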